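import Pool.Agent.H66.RN

set_option autoImplicit false

namespace Pool.Agent.Results.MP_6e9b54_lc.Minimal
open FirstOrder FirstOrder.Language Topology

/-- The topology of pointwise convergence on the endomorphisms of A, with A discrete. -/
def pw (L : FirstOrder.Language.{0, 0}) (A : Type) [L.Structure A] :
    TopologicalSpace (A →[L] A) :=
  TopologicalSpace.induced (fun f => (f : A → A)) (@Pi.topologicalSpace A (fun _ => A) fun _ => ⊥)

theorem pw_open {L : FirstOrder.Language.{0, 0}} {A : Type} [L.Structure A] {O : Set (A →[L] A)}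
    (h : IsOpen[pw L A] O) {f : A →[L] A} (hf : f ∈ O) :
    ∃ F : Set A, F.Finite ∧ ∀ g : A →[L] A, (∀ x ∈ F, g x = f x) → g ∈ O := by
  letI : TopologicalSpace A := ⊥
  obtain ⟨V, hV, rfl⟩ := h
  obtain ⟨I, u, hu, hI⟩ := isOpen_pi_iff.1 hV _ hf
  exact ⟨I, I.finite_toSet, fun g hg => hI fun x hx => by
    change g x ∈ u x
    rw [hg x hx]; exact (hu x hx).2⟩

/-- For every countably infinite omega-categorical structure A in a countable language, every
Hausdorff topology on End(A) with jointly continuous composition that is contained in the topology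
of pointwise convergence is equal to it. -/
theorem result (L : FirstOrder.Language.{0, 0}) [Countable L.Symbols] (A : Type) [L.Structure A]
    [Countable A] [Infinite A]
    (hcat : ∀ (B : Type) [L.Structure B] [Countable B], B ⊨ L.completeTheory A →
      Nonempty (B ≃[L] A))
    (τ : TopologicalSpace (A →[L] A)) (hT2 : @T2Space _ τ)
    (hcont : @Continuous ((A →[L] A) × (A →[L] A)) (A →[L] A) (@instTopologicalSpaceProd _ _ τ τ) τ
      (fun p => p.1.comp p.2))
    (hle : ∀ O : Set (A →[L] A), IsOpen[τ] O → IsOpen[pw L A] O) :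
    τ = pw L A := by
  refine le_antisymm ?_ hle
  have hx : ∀ (f : A →[L] A) (x : A), {g : A →[L] A | g x = f x} ∈ 𝓝 f := by
    intro f x
    by_contra hcon
    haveI : (𝓝 f ⊓ Filter.principal {g : A →[L] A | g x = f x}ᶜ).NeBot :=
      Filter.notMem_iff_inf_principal_compl.1 hcon
    let U := Ultrafilter.of (𝓝 f ⊓ Filter.principal {g : A →[L] A | g x = f x}ᶜ)
    have hU : (U : Filter (A →[L] A)) ≤ 𝓝 f ⊓ Filter.principal {g : A →[L] A | g x = f x}ᶜ :=
      Ultrafilter.of_le _
    obtain ⟨f', e, H⟩ := Pool.Agent.H66.RN.main hcat U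
    have h1 : f' = e.comp f := by
      by_contra hne
      obtain ⟨U1, U2, o1, o2, m1, m2, hd⟩ := t2_separation hne
      obtain ⟨V, W, oV, oW, mV, mW, hVW⟩ := isOpen_prod_iff.1 (o2.preimage hcont) e f m2
      obtain ⟨F1, hF1, k1⟩ := pw_open (hle _ o1) m1
      obtain ⟨F2, hF2, k2⟩ := pw_open (hle _ oV) mV
      obtain ⟨g, hg, h, -, hh⟩ := H W (hU (Filter.mem_inf_of_left (oW.mem_nhds mW))) _
        (hF1.union hF2)
      exact Set.disjoint_left.1 hd (k1 (h.comp g) fun y hy => (hh y (Or.inl hy)).1)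
        (hVW (Set.mk_mem_prod (k2 h fun y hy => (hh y (Or.inr hy)).2) hg))
    obtain ⟨g, hg, h, hi, hh⟩ := H _ (hU (Filter.mem_inf_of_right (Filter.mem_principal_self _)))
      {x, f x} (Set.toFinite _)
    apply hg
    apply hi
    rw [(hh x (Or.inl rfl)).1, (hh (f x) (Or.inr rfl)).2, h1]
    rfl
  intro O hO
  rw [isOpen_iff_mem_nhds]
  intro f hf
  obtain ⟨F, hF, k⟩ := pw_open hO hf
  exact Filter.mem_of_superset ((Filter.biInter_mem hF).2 fun x _ => hx f x)
    fun g hg => k g fun x hx => Set.mem_iInter₂.1 hg x hx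

end Pool.Agent.Results.MP_6e9b54_lc.Minimal
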